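import Pool.Agent.KS6_41.LG.SymN

/-!
# Which conditions have presentations with and without the local-global property (MP_b44554_al)

The definitions (`Alg`, `Clo`, `Cond`, `SatOn`, `LG`, `Sym`, ...) are in
`Pool/Agent/KS6_41/LG/Base.lean` and at the beginning of `Pool/Agent/KS6_41/LG/SymN.lean`.

* Every strong Maltsev condition that is linear or idempotent (more generally, each of whose symbols
  occurring below another symbol is idempotent), with symbols of positive arity, is equivalent to a
  condition without the local-global property, unless it holds in every algebra.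
* `Σ_Sym(2)` has the local-global property (so it has presentations with and without it).
* For `n ≥ 3` no condition equivalent to `Σ_Sym(n)` has the local-global property.
-/

set_option autoImplicit false

namespace Pool.Agent.Results.MP_b44554_al.SymmetricTerms

open Pool.Agent.KS6_41.LG

/-- The term is a variable or a symbol applied to variables. -/
def IsLinearTm {F : Type} {n : ℕ} {ar : F → ℕ} : Tm ar n → Prop
  | .var _ => True
  | .app _ t => ∀ j, ∃ i, t j = .var i

/-- The condition is linear. -/
def IsLinear (C : Cond) : Prop := ∀ e ∈ C.eqs, IsLinearTm e.1 ∧ IsLinearTm e.2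

/-- The condition is idempotent: it makes all its symbols idempotent. -/
def IsIdempotent (C : Cond) : Prop := ∀ f, C.IdemSymbol f

theorem top_of_linear {F : Type} {n : ℕ} {ar : F → ℕ} (J : Set F) (t : Tm ar n)
    (h : IsLinearTm t) : t.Top J := by
  cases t with
  | var i => trivial
  | app f t =>
    intro j
    obtain ⟨i, hi⟩ := h j
    rw [hi]
    trivial

theorem low_of_all {F : Type} {n : ℕ} {ar : F → ℕ} (J : Set F) (hJ : ∀ f, f ∈ J) (t : Tm ar n) :
    t.Low J := by
  induction t with
  | var i => trivial
  | app f t ih => exact ⟨hJ f, ih⟩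

theorem tame_of_linear {C : Cond} (h : IsLinear C) : C.Tame :=
  fun e he => ⟨top_of_linear _ _ (h e he).1, top_of_linear _ _ (h e he).2⟩

theorem tame_of_idempotent {C : Cond} (h : IsIdempotent C) : C.Tame := by
  have key : ∀ t : Tm C.ar C.n, t.Top {f | C.IdemSymbol f} := by
    intro t
    cases t with
    | var i => trivial
    | app f t => exact fun j => low_of_all _ h _
  exact fun e _ => ⟨key _, key _⟩

/-- (1) Linear and idempotent conditions are tame. (2) A tame strong Maltsev condition with symbols
of positive arity is equivalent to one which lacks the local-global property, even for finite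
algebras only, if and only if it fails in some algebra. (3) `Σ_Sym(2)` has the local-global
property, and an equivalent condition lacks it, even for finite algebras only. (4) For `n ≥ 3`, no
strong Maltsev condition which is equivalent to `Σ_Sym(n)`, even if only over the finite idempotent
algebras, has the local-global property, even if only the finite idempotent algebras are
considered. -/
theorem result :
    (∀ S : Cond, IsLinear S ∨ IsIdempotent S → S.Tame) ∧
    (∀ S : Cond, (∀ f, 0 < S.ar f) → S.Tame →
      ((∃ T : Cond, Equivalent S T ∧ ¬ LG T ∧ ¬ LGIn (fun X => Finite X.A) T) ↔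
        ∃ X : Alg, ¬ Sat X S)) ∧
    (LG (Sym 2) ∧
      ∃ T : Cond, Equivalent (Sym 2) T ∧ ¬ LG T ∧ ¬ LGIn (fun X => Finite X.A) T) ∧
    (∀ n : ℕ, 3 ≤ n → ∀ T : Cond,
      (∀ X : Alg, Finite X.A → X.Idem → (Sat X (Sym n) ↔ Sat X T)) →
        ¬ LG T ∧ ¬ LGIn (fun X => Finite X.A ∧ X.Idem) T) := by
  have mono : ∀ (P : Alg → Prop) (T : Cond), ¬ LGIn P T → ¬ LG T := fun P T h h' => by
    obtain ⟨k, hk, h'⟩ := h'
    exact h ⟨k, hk, fun X _ => h' X trivial⟩
  have main : ∀ S : Cond, (∀ f, 0 < S.ar f) → S.Tame →
      ((∃ T : Cond, Equivalent S T ∧ ¬ LG T ∧ ¬ LGIn (fun X => Finite X.A) T) ↔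
        ∃ X : Alg, ¬ Sat X S) := fun S hpos hS =>
    ⟨fun ⟨T, hT, _, hn⟩ => (hidden_iff_nontrivial S hpos hS).1 ⟨T, hT, hn⟩, fun hX => by
      obtain ⟨T, hT, hn⟩ := (hidden_iff_nontrivial S hpos hS).2 hX
      exact ⟨T, hT, mono _ _ hn, hn⟩⟩
  refine ⟨fun S h => h.elim tame_of_linear tame_of_idempotent, main, ⟨lg_sym_two, ?_⟩, ?_⟩
  · exact (main (Sym 2) (fun _ => Nat.two_pos) (tame_sym 2)).2 ⟨P2, not_sat_sym le_rfl⟩
  · intro n hn T hT
    have h := not_lg_of_equivalent_sym hn T hT
    exact ⟨mono _ _ h, h⟩

end Pool.Agent.Results.MP_b44554_al.SymmetricTerms
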